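import Pool.Agent.D0H90.SM.Stm3
import Pool.Agent.D0H81.SM.Base

set_option autoImplicit false

/-!
# Project SM, module FAM: invariant functions with a nonzero Jacobian determinant
-/

namespace Pool.Agent.D0H97.SM

open MvPolynomial Matrix Pool.Agent.D0H90.SM

universe u v w

namespace Fam

/-- Localization and specialisation. -/
theorem loc {A : Type u} [CommRing A] [IsDomain A] (L : Type u) [Field L] [Algebra A L]
    [IsFractionRing A L] {K : Type v} [Field K] {S : Type w} [CommRing S] (F : A →+* S)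
    (e : A →+* K) (hF : ∀ a, e a ≠ 0 → IsUnit (F a)) (hS : ∀ a, IsUnit (F a) → e a ≠ 0) :
    ∃ (O : Type u) (_ : CommRing O) (α : A →+* O) (ι : O →+* L) (φ : O →+* S),
      (∀ a, ι (α a) = algebraMap A L a) ∧ (∀ a, φ (α a) = F a) ∧ Function.Injective ι ∧
      ∀ x, IsUnit (φ x) → IsUnit x := by
  let M : Submonoid A := (nonZeroDivisors K).comap e
  have hM : ∀ a : A, a ∈ M ↔ e a ≠ 0 := by
    intro a
    change e a ∈ nonZeroDivisors K ↔ _
    exact mem_nonZeroDivisors_iff_ne_zero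
  have h1 : ∀ y : M, IsUnit (algebraMap A L y) := by
    intro y
    have h2 : e (y : A) ≠ 0 := (hM _).1 y.2
    have h3 : (y : A) ≠ 0 := by
      intro h
      rw [h, map_zero] at h2
      exact h2 rfl
    rw [isUnit_iff_ne_zero]
    intro h
    exact h3 ((IsFractionRing.injective A L) (by rw [h, map_zero]))
  have h2 : ∀ y : M, IsUnit (F y) := fun y => hF _ ((hM _).1 y.2)
  refine ⟨Localization M, inferInstance, algebraMap A (Localization M),
    IsLocalization.lift h1, IsLocalization.lift h2, fun a => IsLocalization.lift_eq _ _,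
    fun a => IsLocalization.lift_eq _ _, ?_, ?_⟩
  · rw [IsLocalization.lift_injective_iff]
    intro x y
    constructor
    · intro h
      have h3 := congrArg (IsLocalization.lift h1 : Localization M →+* L) h
      rwa [IsLocalization.lift_eq, IsLocalization.lift_eq] at h3
    · intro h
      rw [(IsFractionRing.injective A L) h]
  · intro x hx
    obtain ⟨a, s, rfl⟩ := IsLocalization.exists_mk'_eq M x
    have h3 : (IsLocalization.mk' (Localization M) a s) * algebraMap A (Localization M) s =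
        algebraMap A (Localization M) a := IsLocalization.mk'_spec _ _ _
    have h4 : IsUnit (F a) := by
      have h5 := congrArg (IsLocalization.lift h2 : Localization M →+* S) h3
      rw [map_mul, IsLocalization.lift_eq, IsLocalization.lift_eq] at h5
      rw [← h5]
      exact hx.mul (h2 s)
    have h5 : IsUnit (algebraMap A (Localization M) a) :=
      IsLocalization.map_units (Localization M) (⟨a, (hM a).2 (hS a h4)⟩ : M)
    rw [← h3] at h5
    exact isUnit_of_mul_isUnit_left h5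

open TrivSqZeroExt

/-- Value and derivative. -/
noncomputable def dv {σ : Type v} {k : Type u} [Field k] (v : σ → k) (s₀ : σ)
    (P : MvPolynomial σ k) : TrivSqZeroExt k k := inl (eval v P) + inr (eval v (pderiv s₀ P))

theorem dv_fst {σ : Type v} {k : Type u} [Field k] (v : σ → k) (s₀ : σ)
    (P : MvPolynomial σ k) : (dv v s₀ P).fst = eval v P := by
  simp [dv]

theorem dv_snd {σ : Type v} {k : Type u} [Field k] (v : σ → k) (s₀ : σ)
    (P : MvPolynomial σ k) : (dv v s₀ P).snd = eval v (pderiv s₀ P) := by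
  simp [dv]

theorem dual_eval {σ : Type v} [DecidableEq σ] {k : Type u} [Field k] (v : σ → k) (s₀ : σ)
    (P : MvPolynomial σ k) :
    eval₂ (inlHom k k) (fun s => inl (v s) + inr (if s = s₀ then 1 else 0)) P = dv v s₀ P := by
  induction P using MvPolynomial.induction_on with
  | C a =>
    rw [eval₂_C]
    ext
    · simp [dv]
    · simp [dv]
  | add p q hp hq =>
    rw [eval₂_add, hp, hq]
    ext
    · simp [dv]
    · simp [dv]
  | mul_X p s hp =>
    rw [eval₂_mul, hp, eval₂_X]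
    by_cases h : s = s₀
    · subst h
      ext
      · simp [dv]
      · simp [dv]
        ring
    · ext
      · simp [dv, h]
      · simp [dv, h]
        ring

theorem conj_one {R : Type u} [CommRing R] {n d : ℕ} (c : Cf n d → R) : conj 1 1 c = c := by
  funext a
  unfold conj
  rw [Finset.sum_eq_single a.1]
  · rw [Matrix.one_apply_eq, one_mul]
    have h1 : (fun l : Fin n => ∑ s, C ((1 : Matrix (Fin n) (Fin n) R) l s) * X s) =
        (X : Fin n → MvPolynomial (Fin n) R) := by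
      funext l
      rw [Finset.sum_eq_single l]
      · rw [Matrix.one_apply_eq, C_1, one_mul]
      · intro s _ hs
        rw [Matrix.one_apply_ne (Ne.symm hs), C_0, zero_mul]
      · intro h
        exact absurd (Finset.mem_univ _) h
    rw [h1]
    unfold ev
    rw [coeff_sum, Finset.sum_eq_single a.2]
    · rw [coeff_C_mul]
      have h2 : mon a.2 (X : Fin n → MvPolynomial (Fin n) R) = monomial (toF a.2) 1 := by
        unfold mon
        rw [monomial_eq, C_1, one_mul, Finsupp.prod_fintype _ _ (fun i => pow_zero _)]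
        refine Finset.prod_congr rfl fun i _ => ?_
        rw [Pool.Agent.D0H81.SM.toF_apply]
      rw [h2, coeff_monomial, if_pos rfl, mul_one]
    · intro m _ hm
      rw [coeff_C_mul]
      have h2 : mon m (X : Fin n → MvPolynomial (Fin n) R) = monomial (toF m) 1 := by
        unfold mon
        rw [monomial_eq, C_1, one_mul, Finsupp.prod_fintype _ _ (fun i => pow_zero _)]
        refine Finset.prod_congr rfl fun i _ => ?_
        rw [Pool.Agent.D0H81.SM.toF_apply]
      rw [h2, coeff_monomial, if_neg (fun h => hm (Pool.Agent.D0H81.SM.toF_inj h)), mul_zero]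
    · intro h
      exact absurd (Finset.mem_univ _) h
  · intro j _ hj
    rw [Matrix.one_apply_ne (Ne.symm hj), zero_mul]
  · intro h
    exact absurd (Finset.mem_univ _) h

theorem spec {k : Type u} [Field k] {n d : ℕ} (c : Cf n d → k) (w : Rest n d → k)
    (ρ : Rest n d) :
    ∃ (O : Type u) (_ : CommRing O) (ι : O →+* LL n d k) (φ : O →+* TrivSqZeroExt k k)
      (th : Pol n d k →+* O) (r : MvPolynomial (Rest n d) k →+* O) (D : O),
      Function.Injective ι ∧ (∀ x, IsUnit (φ x) → IsUnit x) ∧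
      (∀ P, ι (th P) = theta c P) ∧ (∀ P, φ (th P) = dv (glue c w) ρ.1 P) ∧
      (∀ R, ι (r R) = algebraMap (PP n d k) (LL n d k) (rename Sum.inr R)) ∧
      (∀ R, φ (r R) = dv w ρ R) ∧ ι D = (genE n d k).det ∧ φ D = 1 := by
  classical
  let F : PP n d k →+* TrivSqZeroExt k k := eval₂Hom (inlHom k k)
    (Sum.elim (fun p => if p.1 = p.2 then 1 else 0)
      (fun ρ' => inl (w ρ') + inr (if ρ' = ρ then 1 else 0)))
  have hfst : ∀ P, (F P).fst = evalOne w P := by
    intro P
    have h : ((fstHom k k k : TrivSqZeroExt k k →ₐ[k] k) : TrivSqZeroExt k k →+* k).comp F =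
        evalOne w := by
      apply MvPolynomial.ringHom_ext
      · intro r
        simp [F, evalOne]
      · rintro (p | ρ')
        · simp only [F, evalOne, RingHom.comp_apply, coe_eval₂Hom, eval₂_X, Sum.elim_inl, eval_X]
          split_ifs <;> simp
        · simp only [F, evalOne, RingHom.comp_apply, coe_eval₂Hom, eval₂_X, Sum.elim_inr, eval_X]
          by_cases h : ρ' = ρ <;> simp [h]
    exact RingHom.congr_fun h P
  have hF : ∀ a, evalOne w a ≠ 0 → IsUnit (F a) := by
    intro a ha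
    rw [isUnit_iff_isUnit_fst, hfst]
    exact isUnit_iff_ne_zero.2 ha
  have hS : ∀ a, IsUnit (F a) → evalOne w a ≠ 0 := by
    intro a ha
    rw [isUnit_iff_isUnit_fst, hfst] at ha
    exact isUnit_iff_ne_zero.1 ha
  obtain ⟨O, _, α, ι, φ, hια, hφα, hι, hu⟩ := loc (LL n d k) F (evalOne w) hF hS
  let E : Matrix (Fin n) (Fin n) O := Matrix.of fun i j => α (X (Sum.inl (i, j)))
  have hEι : E.map ι = genE n d k := by
    ext i j
    simp only [E, Matrix.map_apply, Matrix.of_apply, genE]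
    exact hια _
  have hEφ : E.map φ = 1 := by
    refine Matrix.ext fun i j => ?_
    simp only [E, Matrix.map_apply, Matrix.of_apply]
    rw [hφα]
    simp only [F, coe_eval₂Hom, eval₂_X, Sum.elim_inl]
    rw [Matrix.one_apply]
  have hDφ : φ E.det = 1 := by
    rw [RingHom.map_det]
    have : φ.mapMatrix E = E.map φ := rfl
    rw [this, hEφ, Matrix.det_one]
  have hDι : ι E.det = (genE n d k).det := by
    rw [RingHom.map_det]
    have : ι.mapMatrix E = E.map ι := rfl
    rw [this, hEι]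
  have hDu : IsUnit E.det := hu _ (by rw [hDφ]; exact isUnit_one)
  have hinv : E⁻¹ * E = 1 := Matrix.nonsing_inv_mul E hDu
  have hEι' : E⁻¹.map ι = (genE n d k)⁻¹ := by
    have h1 : E⁻¹.map ι * genE n d k = 1 := by
      rw [← hEι, ← Matrix.map_mul, hinv]
      exact Matrix.map_one _ (map_zero _) (map_one _)
    exact (Matrix.inv_eq_left_inv h1).symm
  have hEφ' : E⁻¹.map φ = 1 := by
    have h1 : E⁻¹.map φ * E.map φ = 1 := by
      rw [← Matrix.map_mul, hinv]
      exact Matrix.map_one _ (map_zero _) (map_one _)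
    rwa [hEφ, mul_one] at h1
  let y : Cf n d → PP n d k := glue (fun a => (C (c a) : PP n d k)) (fun ρ => X (Sum.inr ρ))
  let f : Cf n d → O := conj E⁻¹ E (fun a => α (y a))
  have hfι : (fun a => ι (f a)) = genfL c := by
    have h1 := Pool.Agent.D0H81.SM.conj_map ι (fun a => α (y a)) E⁻¹ E
    rw [← h1, hEι, hEι']
    unfold genfL
    congr 1
    funext a
    rw [hια]
    rfl
  have hfφ : (fun a => φ (f a)) = fun a => inl (glue c w a) + inr (if a = ρ.1 then 1 else 0) := by
    have h1 := Pool.Agent.D0H81.SM.conj_map φ (fun a => α (y a)) E⁻¹ E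
    rw [← h1, hEφ, hEφ', conj_one]
    funext a
    rw [hφα]
    simp only [y]
    unfold glue
    by_cases h : ∃ i, (a.2.1 i : ℕ) = d
    · have h3 : a ≠ ρ.1 := by
        rintro rfl
        exact ρ.2 h
      rw [dif_pos h, dif_pos h, if_neg h3]
      simp [F]
    · rw [dif_neg h, dif_neg h]
      simp only [F, coe_eval₂Hom, eval₂_X, Sum.elim_inr]
      congr 2
      by_cases h3 : a = ρ.1
      · rw [if_pos h3, if_pos (Subtype.ext h3)]
      · rw [if_neg h3, if_neg (fun h4 => h3 (congrArg Subtype.val h4))]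
  refine ⟨O, inferInstance, ι, φ, eval₂Hom (α.comp C) f,
    α.comp ((rename Sum.inr : MvPolynomial (Rest n d) k →ₐ[k] PP n d k) :
      MvPolynomial (Rest n d) k →+* PP n d k), E.det, hι, hu, ?_, ?_, ?_, ?_, hDι, hDφ⟩
  · intro P
    rw [coe_eval₂Hom, hom_eval₂]
    unfold theta
    rw [aeval_def, ← hfι]
    congr 1
    ext a
    simp only [RingHom.comp_apply]
    rw [hια]
    rfl
  · intro P
    rw [coe_eval₂Hom, hom_eval₂, ← dual_eval]
    have h1 : (φ.comp (α.comp C)) = inlHom k k := by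
      ext a
      · simp only [RingHom.comp_apply]
        rw [hφα]
        simp [F]
      · simp only [RingHom.comp_apply]
        rw [hφα]
        simp [F]
    rw [h1]
    congr 1
  · intro R
    simp only [RingHom.comp_apply]
    rw [hια]
    rfl
  · intro R
    simp only [RingHom.comp_apply]
    rw [hφα]
    simp only [F, coe_eval₂Hom]
    rw [← dual_eval]
    change eval₂ _ _ (rename Sum.inr R) = _
    rw [eval₂_rename]
    congr 1

theorem step {k : Type u} [Field k] {n d : ℕ} (c : Cf n d → k) (w : Rest n d → k)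
    (ρ : Rest n d) (T1 T2 : Pol n d k) (h1 : eval (glue c w) T1 ≠ 0)
    (B M m : ℕ) (P Q : Fin m → Pol n d k) (hQ : ∀ i, eval (glue c w) (Q i) ≠ 0)
    (R : MvPolynomial (Rest n d) k)
    (heq : ∀ ψ : LL n d k,
      ψ = algebraMap (PP n d k) (LL n d k) (rename Sum.inr R) *
        (genE n d k).det ^ B / (theta c T1 / theta c T2) ^ M →
      ψ ^ m + ∑ i : Fin m, theta c (P i) / theta c (Q i) * ψ ^ (i : ℕ) = 0)
    (ψ : TrivSqZeroExt k k)
    (hψ : ψ = dv w ρ R * (dv (glue c w) ρ.1 T2 * (dv (glue c w) ρ.1 T1)⁻¹) ^ M) :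
    ψ ^ m + ∑ i : Fin m, dv (glue c w) ρ.1 (P i) * (dv (glue c w) ρ.1 (Q i))⁻¹ * ψ ^ (i : ℕ) =
      0 := by
  obtain ⟨O, _, ι, φ, th, r, D, hι, hu, hιth, hφth, hιr, hφr, hιD, hφD⟩ := spec c w ρ
  have key : ∀ T : Pol n d k, eval (glue c w) T ≠ 0 → ∃ t : O, ι t = (theta c T)⁻¹ ∧
      φ t = (dv (glue c w) ρ.1 T)⁻¹ := by
    intro T hT
    have h3 : (dv (glue c w) ρ.1 T).fst ≠ 0 := by rwa [dv_fst]
    have h4 : IsUnit (th T) := by
      apply hu
      rw [hφth, isUnit_iff_isUnit_fst]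
      exact isUnit_iff_ne_zero.2 h3
    obtain ⟨t, ht⟩ := h4.exists_right_inv
    refine ⟨t, ?_, ?_⟩
    · have h5 := congrArg ι ht
      rw [map_mul, map_one, hιth] at h5
      exact eq_inv_of_mul_eq_one_right h5
    · have h5 := congrArg φ ht
      rw [map_mul, map_one, hφth] at h5
      have h6 := TrivSqZeroExt.mul_inv_cancel h3
      calc φ t = φ t * (dv (glue c w) ρ.1 T * (dv (glue c w) ρ.1 T)⁻¹) := by rw [h6, mul_one]
        _ = (dv (glue c w) ρ.1 T * φ t) * (dv (glue c w) ρ.1 T)⁻¹ := by ring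
        _ = _ := by rw [h5, one_mul]
  obtain ⟨t1, ht1, ht1'⟩ := key T1 h1
  choose q hq hq' using fun i => key (Q i) (hQ i)
  have h3 := heq (ι (r R * D ^ B * (th T2 * t1) ^ M)) (by
    rw [map_mul, map_mul, map_pow, map_pow, map_mul, hιr, hιD, hιth, ht1, div_eq_mul_inv,
      div_eq_mul_inv, ← inv_pow, mul_inv, inv_inv]
    ring)
  have h4 : (r R * D ^ B * (th T2 * t1) ^ M) ^ m + ∑ i : Fin m, th (P i) * q i *
      (r R * D ^ B * (th T2 * t1) ^ M) ^ (i : ℕ) = 0 := by
    apply hι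
    rw [map_zero, ← h3, map_add, map_pow, map_sum]
    congr 1
    refine Finset.sum_congr rfl fun i _ => ?_
    rw [map_mul, map_mul, hιth, hq, map_pow, div_eq_mul_inv]
  have h5 := congrArg φ h4
  have h6 : φ (r R * D ^ B * (th T2 * t1) ^ M) = ψ := by
    rw [hψ, map_mul, map_mul, map_pow, map_pow, map_mul, hφr, hφD, hφth, ht1', one_pow, mul_one]
  rw [map_zero, map_add, map_pow, map_sum, h6] at h5
  rw [← h5]
  congr 1
  refine Finset.sum_congr rfl fun i _ => ?_
  rw [map_mul, map_mul, hφth, hq', map_pow, h6]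

theorem quot_snd {σ : Type v} {k : Type u} [Field k] (v : σ → k) (s₀ : σ)
    (P Q : MvPolynomial σ k) (hQ : eval v Q ≠ 0) :
    (dv v s₀ P * (dv v s₀ Q)⁻¹).snd = ((eval v Q) ^ 2)⁻¹ *
      (eval v Q * eval v (pderiv s₀ P) - eval v P * eval v (pderiv s₀ Q)) := by
  simp only [snd_mul, fst_inv, snd_inv, dv_fst, dv_snd, smul_eq_mul, op_smul_eq_smul]
  field_simp
  ring

theorem quot_fst {σ : Type v} {k : Type u} [Field k] (v : σ → k) (s₀ : σ)
    (P Q : MvPolynomial σ k) :
    (dv v s₀ P * (dv v s₀ Q)⁻¹).fst = eval v P / eval v Q := by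
  simp only [fst_mul, fst_inv, dv_fst]
  rw [div_eq_mul_inv]

/-- The span of the gradients of the invariant functions. -/
def U {k : Type u} [Field k] {n d : ℕ} (c : Cf n d → k) (w : Rest n d → k) :
    Submodule k (Rest n d → k) :=
  Submodule.span k {v | ∃ P Q : Pol n d k, (Invt P Q ∧ eval c Q ≠ 0 ∧ eval (glue c w) Q ≠ 0) ∧
    v = fun ρ => eval (glue c w) (grad P Q ρ)}

theorem mem_U {k : Type u} [Field k] {n d : ℕ} (c : Cf n d → k) (w : Rest n d → k)
    (T1 T2 : Pol n d k) (h1 : eval (glue c w) T1 ≠ 0)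
    (B M m : ℕ) (P Q : Fin m → Pol n d k)
    (hPQ : ∀ i, Invt (P i) (Q i) ∧ eval c (Q i) ≠ 0 ∧ eval (glue c w) (Q i) ≠ 0)
    (R : MvPolynomial (Rest n d) k)
    (heq : ∀ ψ : LL n d k,
      ψ = algebraMap (PP n d k) (LL n d k) (rename Sum.inr R) *
        (genE n d k).det ^ B / (theta c T1 / theta c T2) ^ M →
      ψ ^ m + ∑ i : Fin m, theta c (P i) / theta c (Q i) * ψ ^ (i : ℕ) = 0)
    (hder : ∀ ψ₀ : k,
      ψ₀ = eval w R / (eval (glue c w) T1 / eval (glue c w) T2) ^ M →
      (m : k) * ψ₀ ^ (m - 1) + ∑ i : Fin m, ((i : ℕ) : k) *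
        (eval (glue c w) (P i) / eval (glue c w) (Q i)) * ψ₀ ^ ((i : ℕ) - 1) ≠ 0) :
    (fun ρ => (dv w ρ R * (dv (glue c w) ρ.1 T2 * (dv (glue c w) ρ.1 T1)⁻¹) ^ M).snd) ∈ U c w := by
  set ψ₀ : k := eval w R / (eval (glue c w) T1 / eval (glue c w) T2) ^ M with hψ₀
  have hD := hder ψ₀ hψ₀
  set D : k := (m : k) * ψ₀ ^ (m - 1) + ∑ i : Fin m, ((i : ℕ) : k) *
        (eval (glue c w) (P i) / eval (glue c w) (Q i)) * ψ₀ ^ ((i : ℕ) - 1) with hDdef
  have hfst : ∀ ρ : Rest n d,
      (dv w ρ R * (dv (glue c w) ρ.1 T2 * (dv (glue c w) ρ.1 T1)⁻¹) ^ M).fst = ψ₀ := by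
    intro ρ
    rw [fst_mul, fst_pow, quot_fst, dv_fst, hψ₀, div_eq_mul_inv (eval w R), ← inv_pow, inv_div]
  have main : (fun ρ => (dv w ρ R * (dv (glue c w) ρ.1 T2 * (dv (glue c w) ρ.1 T1)⁻¹) ^ M).snd) =
      ∑ i : Fin m, (-(D⁻¹ * ((eval (glue c w) (Q i)) ^ 2)⁻¹ * ψ₀ ^ (i : ℕ))) •
        (fun ρ => eval (glue c w) (grad (P i) (Q i) ρ)) := by
    funext ρ
    have h3 := step c w ρ T1 T2 h1 B M m P Q (fun i => (hPQ i).2.2) R heq _ rfl
    have h4 := hfst ρ
    set ψ := dv w ρ R * (dv (glue c w) ρ.1 T2 * (dv (glue c w) ρ.1 T1)⁻¹) ^ M with hψ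
    have h5 := congrArg TrivSqZeroExt.snd h3
    rw [snd_add, snd_zero, snd_pow, snd_sum, h4] at h5
    have h6 : ∀ i : Fin m, (dv (glue c w) ρ.1 (P i) * (dv (glue c w) ρ.1 (Q i))⁻¹ *
        ψ ^ (i : ℕ)).snd = ((i : ℕ) : k) *
        (eval (glue c w) (P i) / eval (glue c w) (Q i)) * ψ₀ ^ ((i : ℕ) - 1) * ψ.snd +
        ((eval (glue c w) (Q i)) ^ 2)⁻¹ * ψ₀ ^ (i : ℕ) *
          eval (glue c w) (grad (P i) (Q i) ρ) := by
      intro i
      rw [snd_mul, quot_fst, quot_snd _ _ _ _ (hPQ i).2.2, snd_pow, fst_pow, h4]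
      simp only [smul_eq_mul, op_smul_eq_smul, nsmul_eq_mul, Nat.pred_eq_sub_one]
      unfold grad
      rw [map_sub, map_mul, map_mul]
      ring
    rw [Finset.sum_congr rfl (fun i _ => h6 i), Finset.sum_add_distrib, ← Finset.sum_mul] at h5
    have h7 : D * ψ.snd = - ∑ i : Fin m, ((eval (glue c w) (Q i)) ^ 2)⁻¹ * ψ₀ ^ (i : ℕ) *
          eval (glue c w) (grad (P i) (Q i) ρ) := by
      rw [hDdef]
      simp only [smul_eq_mul, nsmul_eq_mul, Nat.pred_eq_sub_one] at h5
      linear_combination h5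
    have h8 : ψ.snd = D⁻¹ * (D * ψ.snd) := by
      rw [← mul_assoc, inv_mul_cancel₀ hD, one_mul]
    change ψ.snd = _
    rw [h8, h7, mul_neg, Finset.mul_sum, Finset.sum_apply, ← Finset.sum_neg_distrib]
    refine Finset.sum_congr rfl fun i _ => ?_
    rw [Pi.smul_apply, smul_eq_mul]
    ring
  rw [main]
  refine Submodule.sum_mem _ fun i _ => Submodule.smul_mem _ _ (Submodule.subset_span ?_)
  exact ⟨P i, Q i, hPQ i, rfl⟩

theorem exists_R0 {k : Type u} [Field k] {σ : Type v} (bad : Finset (σ → k)) (w : σ → k)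
    (hw : w ∉ bad) : ∃ R : MvPolynomial σ k, (∀ z ∈ bad, eval z R = 0) ∧ eval w R = 1 := by
  classical
  have h : ∀ z : bad, ∃ s, z.1 s ≠ w s := by
    intro z
    by_contra hc
    push Not at hc
    exact hw ((funext hc : z.1 = w) ▸ z.2)
  choose s hs using h
  refine ⟨∏ z : bad, (C ((w (s z) - z.1 (s z))⁻¹) * (X (s z) - C (z.1 (s z)))), ?_, ?_⟩
  · intro z hz
    rw [map_prod]
    refine Finset.prod_eq_zero (Finset.mem_univ (⟨z, hz⟩ : bad)) ?_
    simp
  · rw [map_prod]
    refine Finset.prod_eq_one fun z _ => ?_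
    have h1 : w (s z) - z.1 (s z) ≠ 0 := sub_ne_zero.2 (hs z).symm
    simp [h1]

theorem span_top {k : Type u} [Field k] {n d : ℕ} (c : Cf n d → k) (w : Rest n d → k)
    (hU : U c w = ⊤) : ∃ P Q : Rest n d → Pol n d k,
        (∀ ρ, Invt (P ρ) (Q ρ) ∧ eval c (Q ρ) ≠ 0 ∧ eval (glue c w) (Q ρ) ≠ 0) ∧
        eval (glue c w) (Jac P Q) ≠ 0 := by
  classical
  set S : Set (Rest n d → k) := {v | ∃ P Q : Pol n d k, (Invt P Q ∧ eval c Q ≠ 0 ∧
    eval (glue c w) Q ≠ 0) ∧ v = fun ρ => eval (glue c w) (grad P Q ρ)} with hS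
  obtain ⟨b, hbS, hspan, hli⟩ := exists_linearIndependent k S
  have htop : Submodule.span k b = ⊤ := by
    rw [hspan]
    exact hU
  let B := Module.Basis.mk hli (by rw [Subtype.range_coe, htop])
  let e : Rest n d ≃ b := (Pi.basisFun k (Rest n d)).indexEquiv B
  have hmem : ∀ ρ : Rest n d, ∃ P Q : Pol n d k, (Invt P Q ∧ eval c Q ≠ 0 ∧
      eval (glue c w) Q ≠ 0) ∧ (e ρ).1 = fun ρ => eval (glue c w) (grad P Q ρ) :=
    fun ρ => hbS (e ρ).2
  choose P Q hPQ he using hmem
  refine ⟨P, Q, hPQ, ?_⟩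
  unfold Jac
  rw [RingHom.map_det]
  have h1 : (eval (glue c w)).mapMatrix (Matrix.of fun i ρ => grad (P i) (Q i) ρ) =
      Matrix.of fun i : Rest n d => (e i).1 := by
    refine Matrix.ext fun i ρ => ?_
    rw [RingHom.mapMatrix_apply, Matrix.map_apply, Matrix.of_apply, Matrix.of_apply, he i]
  rw [h1]
  have h2 : LinearIndependent k (fun i : Rest n d => (e i).1) := hli.comp e e.injective
  have h3 : IsUnit (Matrix.of fun i : Rest n d => (e i).1) :=
    Matrix.linearIndependent_rows_iff_isUnit.1 h2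
  have h4 := (Matrix.isUnit_iff_isUnit_det _).1 h3
  convert! h4.ne_zero

end Fam

open Fam TrivSqZeroExt in
/-- FAM from PSI. -/
theorem t_FAM : S_PSI.{u} → S_FAM.{u} := by
  intro hPSI k _ _ _ n d hn hd c w hc htc hy hty haut b T1 T2 hb hT hT1c hT2c hT1 hT2
  obtain ⟨bad, hw, hbad⟩ := hPSI k n d hn hd c w hc htc hy hty haut b T1 T2 hb hT hT1c hT2c hT1 hT2
  apply span_top
  obtain ⟨R₀, hR₀, hR₀w⟩ := exists_R0 bad w hw
  have hU : ∀ (R : MvPolynomial (Rest n d) k) (M : ℕ), (∀ z ∈ bad, eval z R = 0) →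
      eval w R ≠ 0 → R.totalDegree < b * M →
      (fun ρ => (dv w ρ R * (dv (glue c w) ρ.1 T2 * (dv (glue c w) ρ.1 T1)⁻¹) ^ M).snd) ∈
        U c w := by
    intro R M h1 h2 h3
    obtain ⟨m, P, Q, hPQ, heq, hder⟩ := hbad R M h1 h2 h3
    exact mem_U c w T1 T2 hT1 (b * M) M m P Q hPQ R heq hder
  rw [eq_top_iff]
  intro v _
  classical
  have hv : v = ∑ ρ, v ρ • (Pi.single ρ (1 : k) : Rest n d → k) := by
    funext ρ
    rw [Finset.sum_apply, Finset.sum_eq_single ρ]
    · simp
    · intro ρ' _ h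
      simp [Pi.single_eq_of_ne h.symm]
    · intro h
      exact absurd (Finset.mem_univ _) h
  rw [hv]
  refine Submodule.sum_mem _ fun ρ _ => Submodule.smul_mem _ _ ?_
  set R₁ : MvPolynomial (Rest n d) k := R₀ * (X ρ - C (w ρ)) with hR₁
  set M : ℕ := R₀.totalDegree + (R₀ + R₁).totalDegree + 1 with hM
  have hM1 : R₀.totalDegree < b * M := by nlinarith
  have hM2 : (R₀ + R₁).totalDegree < b * M := by nlinarith
  have h0 := hU R₀ M hR₀ (by rw [hR₀w]; exact one_ne_zero) hM1
  have h1 := hU (R₀ + R₁) M (by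
      intro z hz
      rw [map_add, hR₁, map_mul, hR₀ z hz, zero_mul, add_zero]) (by
      rw [map_add, hR₁, map_mul, hR₀w]
      simp) hM2
  have h2 := Submodule.sub_mem _ h1 h0
  set κ : k := (eval (glue c w) T2 / eval (glue c w) T1) ^ M with hκ
  have hκ0 : κ ≠ 0 := pow_ne_zero _ (div_ne_zero hT2 hT1)
  have h3 : (Pi.single ρ (1 : k) : Rest n d → k) = κ⁻¹ •
      ((fun ρ => (dv w ρ (R₀ + R₁) * (dv (glue c w) ρ.1 T2 * (dv (glue c w) ρ.1 T1)⁻¹) ^ M).snd) -
      (fun ρ => (dv w ρ R₀ * (dv (glue c w) ρ.1 T2 * (dv (glue c w) ρ.1 T1)⁻¹) ^ M).snd)) := by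
    funext ρ'
    rw [Pi.smul_apply, Pi.sub_apply]
    simp only [snd_mul, fst_pow, quot_fst, dv_fst, dv_snd, smul_eq_mul, op_smul_eq_smul]
    rw [← hκ, hR₁]
    by_cases h : ρ' = ρ
    · subst h
      simp [hR₀w]
      field_simp
      ring
    · rw [Pi.single_eq_of_ne h]
      simp [hR₀w, pderiv_X_of_ne (R := k) (Ne.symm h)]
  rw [h3]
  exact Submodule.smul_mem _ _ h2

end Pool.Agent.D0H97.SM

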